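import Mathlib

/-!
# Numbers for the lower bound on the queried cells
-/

set_option autoImplicit false

namespace Pool.Agent.Helper4.NF

/-- The hypotheses on the numbers force `n` to be large. -/
theorem large_of (n m : ℕ) (K : ℝ) (hm : 1 ≤ m) (hK0 : 0 ≤ K) (hK : K ≤ 1 - 2 * Real.log n / m)
    (hm2 : (6 * m ^ 2 : ℝ) ≤ Real.sqrt n) : (46656 : ℝ) ≤ n ∧ (216 : ℝ) ≤ Real.sqrt n ∧ 10 ≤ Real.log n := by
  have hn0 : (0 : ℝ) ≤ n := Nat.cast_nonneg n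
  have hm1 : (1 : ℝ) ≤ m := by exact_mod_cast hm
  have hlog : 2 * Real.log n ≤ m := by
    have h1 : 2 * Real.log n / m ≤ 1 := by linarith
    have h2 : (0 : ℝ) < m := by linarith
    rwa [div_le_one h2] at h1
  have hs : Real.sqrt n * Real.sqrt n = n := Real.mul_self_sqrt hn0
  have h6 : (6 : ℝ) ≤ Real.sqrt n := by nlinarith
  have h36 : (36 : ℝ) ≤ n := by nlinarith
  have he3 : Real.exp 3 ≤ 36 := by
    have h1 : Real.exp 3 = Real.exp 1 ^ 3 := by rw [← Real.exp_nat_mul]; norm_num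
    have h2 : Real.exp 1 < 2.7182818286 := Real.exp_one_lt_d9
    have h3 : (0 : ℝ) < Real.exp 1 := Real.exp_pos 1
    rw [h1]
    calc Real.exp 1 ^ 3 ≤ (2.7182818286 : ℝ) ^ 3 := pow_le_pow_left₀ h3.le h2.le 3
      _ ≤ 36 := by norm_num
  have hl3 : 3 ≤ Real.log n := by
    rw [Real.le_log_iff_exp_le (by linarith)]
    linarith
  have hm6 : (6 : ℝ) ≤ m := by linarith
  have h216 : (216 : ℝ) ≤ Real.sqrt n := by nlinarith
  have h46 : (46656 : ℝ) ≤ n := by nlinarith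
  have he10 : Real.exp 10 ≤ 46656 := by
    have h1 : Real.exp 10 = Real.exp 1 ^ 10 := by rw [← Real.exp_nat_mul]; norm_num
    have h2 : Real.exp 1 < 2.7182818286 := Real.exp_one_lt_d9
    have h3 : (0 : ℝ) < Real.exp 1 := Real.exp_pos 1
    rw [h1]
    calc Real.exp 1 ^ 10 ≤ (2.7182818286 : ℝ) ^ 10 := pow_le_pow_left₀ h3.le h2.le 10
      _ ≤ 46656 := by norm_num
  refine ⟨h46, h216, ?_⟩
  rw [Real.le_log_iff_exp_le (by linarith)]
  linarith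

/-- F12 for a real factor `s`. -/
theorem numbers_real (n m : ℕ) (s K : ℝ) (_hs0 : 0 ≤ s) (hm : 1 ≤ m) (hK0 : 0 ≤ K) (hK : K ≤ 1 - 2 * Real.log n / m)
    (hm2 : (6 * m ^ 2 : ℝ) ≤ Real.sqrt n) (hS : s ≤ (n : ℝ) ^ ((n : ℝ) / 3)) :
    n * m * K ^ m + s * (Real.exp n * (4 * m ^ 2 * K / n + 2 * m ^ 2 * n * K ^ m) ^ (n - 1)) ≤ 1 / 200 := by
  obtain ⟨h46, h216, hl⟩ := large_of n m K hm hK0 hK hm2
  have hn0 : (0 : ℝ) < n := by linarith
  have hn1 : 1 ≤ n := by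
    have : 0 < n := by exact_mod_cast hn0
    omega
  have hm1 : (1 : ℝ) ≤ m := by exact_mod_cast hm
  have hm0 : (0 : ℝ) < m := by linarith
  have hs : Real.sqrt n * Real.sqrt n = n := Real.mul_self_sqrt hn0.le
  have hr0 : 0 < Real.sqrt n := by linarith
  -- the power
  have hKm : K ^ m ≤ 1 / (n : ℝ) ^ 2 := by
    have h1 : K ≤ Real.exp (-(2 * Real.log n / m)) := by
      have := Real.add_one_le_exp (-(2 * Real.log n / m))
      linarith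
    calc K ^ m ≤ Real.exp (-(2 * Real.log n / m)) ^ m := pow_le_pow_left₀ hK0 h1 m
      _ = Real.exp (-(2 * Real.log n)) := by
          rw [← Real.exp_nat_mul]
          congr 1
          field_simp
      _ = 1 / (n : ℝ) ^ 2 := by
          rw [Real.exp_neg, two_mul, Real.exp_add, Real.exp_log hn0, one_div, sq]
  have hK1 : K ≤ 1 := by
    have : 0 ≤ 2 * Real.log n / m := by positivity
    linarith
  have hKm0 : 0 ≤ K ^ m := pow_nonneg hK0 m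
  -- first term
  have hA : (n : ℝ) * m * K ^ m ≤ 1 / 400 := by
    have h1 : (n : ℝ) * m * K ^ m ≤ n * m * (1 / (n : ℝ) ^ 2) :=
      mul_le_mul_of_nonneg_left hKm (by positivity)
    have h2 : (n : ℝ) * m * (1 / (n : ℝ) ^ 2) = m / n := by
      field_simp
    have h3 : (m : ℝ) / n ≤ 1 / 400 := by
      rw [div_le_div_iff₀ hn0 (by norm_num)]
      nlinarith
    linarith
  -- the base
  have hB : 4 * (m : ℝ) ^ 2 * K / n + 2 * m ^ 2 * n * K ^ m ≤ (Real.sqrt n)⁻¹ := by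
    have h1 : 4 * (m : ℝ) ^ 2 * K / n ≤ 4 * m ^ 2 / n := by
      apply div_le_div_of_nonneg_right _ hn0.le
      have : (0 : ℝ) ≤ 4 * m ^ 2 := by positivity
      nlinarith
    have h2 : 2 * (m : ℝ) ^ 2 * n * K ^ m ≤ 2 * m ^ 2 / n := by
      calc 2 * (m : ℝ) ^ 2 * n * K ^ m ≤ 2 * (m : ℝ) ^ 2 * n * (1 / (n : ℝ) ^ 2) :=
            mul_le_mul_of_nonneg_left hKm (by positivity)
        _ = 2 * m ^ 2 / n := by field_simp
    have h3 : 4 * (m : ℝ) ^ 2 / n + 2 * m ^ 2 / n = 6 * m ^ 2 / n := by ring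
    have h4 : 6 * (m : ℝ) ^ 2 / n ≤ Real.sqrt n / n := div_le_div_of_nonneg_right hm2 hn0.le
    have h5 : Real.sqrt n / n = (Real.sqrt n)⁻¹ := by
      rw [div_eq_iff hn0.ne', ← hs]
      field_simp
      rw [Real.sqrt_sq hr0.le]
    linarith
  have hB0 : 0 ≤ 4 * (m : ℝ) ^ 2 * K / n + 2 * m ^ 2 * n * K ^ m := by positivity
  have hC : (4 * (m : ℝ) ^ 2 * K / n + 2 * m ^ 2 * n * K ^ m) ^ (n - 1) ≤
      Real.exp (-((n : ℝ) - 1) * (Real.log n / 2)) := by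
    calc (4 * (m : ℝ) ^ 2 * K / n + 2 * m ^ 2 * n * K ^ m) ^ (n - 1) ≤ ((Real.sqrt n)⁻¹) ^ (n - 1) :=
          pow_le_pow_left₀ hB0 hB _
      _ = Real.exp (-((n : ℝ) - 1) * (Real.log n / 2)) := by
          have h1 : (Real.sqrt n)⁻¹ = Real.exp (-(Real.log n / 2)) := by
            rw [Real.exp_neg, ← Real.log_sqrt hn0.le, Real.exp_log hr0]
          rw [h1, ← Real.exp_nat_mul, Nat.cast_sub hn1]
          congr 1
          push_cast
          ring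
  have hS' : s ≤ Real.exp (Real.log n * (n / 3)) := by
    rw [Real.rpow_def_of_pos hn0] at hS
    exact hS
  have hD : s * (Real.exp n * (4 * (m : ℝ) ^ 2 * K / n + 2 * m ^ 2 * n * K ^ m) ^ (n - 1)) ≤ 1 / 400 := by
    calc s * (Real.exp n * (4 * (m : ℝ) ^ 2 * K / n + 2 * m ^ 2 * n * K ^ m) ^ (n - 1))
        ≤ Real.exp (Real.log n * (n / 3)) * (Real.exp n * Real.exp (-((n : ℝ) - 1) * (Real.log n / 2))) := by
          apply mul_le_mul hS' _ (by positivity) (by positivity)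
          exact mul_le_mul_of_nonneg_left hC (by positivity)
      _ = Real.exp (Real.log n * (n / 3) + (n + -((n : ℝ) - 1) * (Real.log n / 2))) := by
          rw [Real.exp_add, Real.exp_add]
      _ ≤ Real.exp (-10) := by
          apply Real.exp_le_exp.mpr
          have : (0 : ℝ) ≤ (n / 6 - 1 / 2) * (Real.log n - 10) := by
            apply mul_nonneg <;> linarith
          nlinarith
      _ ≤ 1 / 400 := by
          have h1 : (400 : ℝ) ≤ Real.exp 10 := by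
            have h1 : Real.exp 10 = Real.exp 1 ^ 10 := by rw [← Real.exp_nat_mul]; norm_num
            have h2 : (2.7182818283 : ℝ) < Real.exp 1 := Real.exp_one_gt_d9
            rw [h1]
            calc (400 : ℝ) ≤ (2.7182818283 : ℝ) ^ 10 := by norm_num
              _ ≤ Real.exp 1 ^ 10 := pow_le_pow_left₀ (by norm_num) h2.le 10
          rw [Real.exp_neg, one_div]
          exact inv_anti₀ (by norm_num) h1
  linarith

/-- F12: numbers. -/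
theorem numbers (n m S : ℕ) (K : ℝ) (hm : 1 ≤ m) (hK0 : 0 ≤ K) (hK : K ≤ 1 - 2 * Real.log n / m)
    (hm2 : (6 * m ^ 2 : ℝ) ≤ Real.sqrt n) (hS : (S : ℝ) ≤ (n : ℝ) ^ ((n : ℝ) / 3)) :
    n * m * K ^ m + S * (Real.exp n * (4 * m ^ 2 * K / n + 2 * m ^ 2 * n * K ^ m) ^ (n - 1)) ≤ 1 / 200 :=
  numbers_real n m S K (Nat.cast_nonneg S) hm hK0 hK hm2 hS

/-- The collisions and the fibres, divided by the number of cells `k`. -/
theorem numbers_k (n m p k : ℕ) (K : ℝ) (hm : 1 ≤ m) (hK0 : 0 ≤ K) (hK : K ≤ 1 - 2 * Real.log n / m)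
    (hm2 : (6 * m ^ 2 : ℝ) ≤ Real.sqrt n) (hk : n ^ 5 ≤ k) (hp : 200 * (m * p) ≤ k) :
    (((n : ℝ) * (n + 1) * m) ^ 2 + m * p) / k ≤ 1 / 100 := by
  obtain ⟨h46, h216, -⟩ := large_of n m K hm hK0 hK hm2
  have hn0 : (0 : ℝ) < n := by linarith
  have hs : Real.sqrt n * Real.sqrt n = n := Real.mul_self_sqrt hn0.le
  have hk1 : (n : ℝ) ^ 5 ≤ k := by exact_mod_cast hk
  have hk0 : (0 : ℝ) < k := lt_of_lt_of_le (by positivity) hk1
  have hp1 : 200 * ((m : ℝ) * p) ≤ k := by exact_mod_cast hp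
  rw [div_le_div_iff₀ hk0 (by norm_num)]
  have h1 : ((n : ℝ) + 1) ^ 2 ≤ 2 * (n : ℝ) ^ 2 := by nlinarith
  have h2 : 400 * (m : ℝ) ^ 2 ≤ n := by nlinarith
  have h3 : 200 * ((n : ℝ) * (n + 1) * m) ^ 2 ≤ (n : ℝ) ^ 5 := by
    have h5 : 200 * ((n : ℝ) * (n + 1) * m) ^ 2 = (n : ℝ) ^ 2 * (n + 1) ^ 2 * (200 * (m : ℝ) ^ 2) := by ring
    have h4 : 200 * ((n : ℝ) * (n + 1) * m) ^ 2 ≤ (n : ℝ) ^ 2 * (2 * (n : ℝ) ^ 2) * (200 * (m : ℝ) ^ 2) := by
      rw [h5]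
      gcongr
    have h6 : (n : ℝ) ^ 2 * (2 * (n : ℝ) ^ 2) * (200 * (m : ℝ) ^ 2) = (n : ℝ) ^ 4 * (400 * (m : ℝ) ^ 2) := by ring
    have h7 : (n : ℝ) ^ 4 * (400 * (m : ℝ) ^ 2) ≤ (n : ℝ) ^ 4 * n := by gcongr
    have h8 : (n : ℝ) ^ 4 * n = (n : ℝ) ^ 5 := by ring
    linarith
  linarith

/-- The collisions and the fibres, divided by the number of cells `k` (root term `p / k`). -/
theorem numbers_k' (n m p k : ℕ) (K : ℝ) (hm : 1 ≤ m) (hK0 : 0 ≤ K) (hK : K ≤ 1 - 2 * Real.log n / m)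
    (hm2 : (6 * m ^ 2 : ℝ) ≤ Real.sqrt n) (hk : n ^ 5 ≤ k) (hp : 200 * p ≤ k) :
    (((n : ℝ) * (n + 1) * m) ^ 2 + p) / k ≤ 1 / 100 := by
  obtain ⟨h46, h216, -⟩ := large_of n m K hm hK0 hK hm2
  have hn0 : (0 : ℝ) < n := by linarith
  have hs : Real.sqrt n * Real.sqrt n = n := Real.mul_self_sqrt hn0.le
  have hk1 : (n : ℝ) ^ 5 ≤ k := by exact_mod_cast hk
  have hk0 : (0 : ℝ) < k := lt_of_lt_of_le (by positivity) hk1
  have hp1 : 200 * (p : ℝ) ≤ k := by exact_mod_cast hp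
  rw [div_le_div_iff₀ hk0 (by norm_num)]
  have h1 : ((n : ℝ) + 1) ^ 2 ≤ 2 * (n : ℝ) ^ 2 := by nlinarith
  have h2 : 400 * (m : ℝ) ^ 2 ≤ n := by nlinarith
  have h3 : 200 * ((n : ℝ) * (n + 1) * m) ^ 2 ≤ (n : ℝ) ^ 5 := by
    have h5 : 200 * ((n : ℝ) * (n + 1) * m) ^ 2 = (n : ℝ) ^ 2 * (n + 1) ^ 2 * (200 * (m : ℝ) ^ 2) := by ring
    have h4 : 200 * ((n : ℝ) * (n + 1) * m) ^ 2 ≤ (n : ℝ) ^ 2 * (2 * (n : ℝ) ^ 2) * (200 * (m : ℝ) ^ 2) := by
      rw [h5]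
      gcongr
    have h6 : (n : ℝ) ^ 2 * (2 * (n : ℝ) ^ 2) * (200 * (m : ℝ) ^ 2) = (n : ℝ) ^ 4 * (400 * (m : ℝ) ^ 2) := by ring
    have h7 : (n : ℝ) ^ 4 * (400 * (m : ℝ) ^ 2) ≤ (n : ℝ) ^ 4 * n := by gcongr
    have h8 : (n : ℝ) ^ 4 * n = (n : ℝ) ^ 5 := by ring
    linarith
  linarith

/-- The whole bound: `σ` initial states, `S ≤ σ n ^ (n / 3)` states. -/
theorem total_of (n m σ S : ℕ) (K A : ℝ) (hm : 1 ≤ m) (hK0 : 0 ≤ K) (hK : K ≤ 1 - 2 * Real.log n / m)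
    (hm2 : (6 * m ^ 2 : ℝ) ≤ Real.sqrt n) (hS : (S : ℝ) ≤ σ * (n : ℝ) ^ ((n : ℝ) / 3)) (hA : A ≤ 1 / 100) :
    σ * (A + n * m * K ^ m) +
      S * (Real.exp n * (4 * m ^ 2 * K / n + 2 * m ^ 2 * n * K ^ m) ^ (n - 1)) ≤ σ / 50 := by
  rcases Nat.eq_zero_or_pos σ with h0 | h0
  · subst h0
    have h2 : (S : ℝ) = 0 := by
      have h3 : (S : ℝ) ≤ 0 := by simpa using hS
      exact le_antisymm h3 (Nat.cast_nonneg S)
    rw [h2]
    simp
  · have h0' : (0 : ℝ) < σ := by exact_mod_cast h0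
    have h2 := numbers_real n m ((S : ℝ) / σ) K (by positivity) hm hK0 hK hm2
      (by rw [div_le_iff₀ h0']; linarith)
    set B := Real.exp n * (4 * (m : ℝ) ^ 2 * K / n + 2 * m ^ 2 * n * K ^ m) ^ (n - 1) with hB
    have h3 : (σ : ℝ) * (A + n * m * K ^ m) + S * B = σ * (A + (n * m * K ^ m + S / σ * B)) := by
      field_simp
      ring
    rw [h3]
    have h4 : A + (n * m * K ^ m + S / σ * B) ≤ 1 / 50 := by linarith
    calc (σ : ℝ) * (A + (n * m * K ^ m + S / σ * B)) ≤ σ * (1 / 50) := mul_le_mul_of_nonneg_left h4 h0'.le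
      _ = σ / 50 := by ring

/-- The whole bound with the root term `m p / k`. -/
theorem numbers_total (n m p k σ S : ℕ) (K : ℝ) (hm : 1 ≤ m) (hK0 : 0 ≤ K) (hK : K ≤ 1 - 2 * Real.log n / m)
    (hm2 : (6 * m ^ 2 : ℝ) ≤ Real.sqrt n) (hk : n ^ 5 ≤ k) (hp : 200 * (m * p) ≤ k)
    (hS : (S : ℝ) ≤ σ * (n : ℝ) ^ ((n : ℝ) / 3)) :
    σ * ((((n : ℝ) * (n + 1) * m) ^ 2 + m * p) / k + n * m * K ^ m) +
      S * (Real.exp n * (4 * m ^ 2 * K / n + 2 * m ^ 2 * n * K ^ m) ^ (n - 1)) ≤ σ / 50 :=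
  total_of n m σ S K _ hm hK0 hK hm2 hS (numbers_k n m p k K hm hK0 hK hm2 hk hp)

/-- The whole bound with the root term `p / k`. -/
theorem numbers_total' (n m p k σ S : ℕ) (K : ℝ) (hm : 1 ≤ m) (hK0 : 0 ≤ K) (hK : K ≤ 1 - 2 * Real.log n / m)
    (hm2 : (6 * m ^ 2 : ℝ) ≤ Real.sqrt n) (hk : n ^ 5 ≤ k) (hp : 200 * p ≤ k)
    (hS : (S : ℝ) ≤ σ * (n : ℝ) ^ ((n : ℝ) / 3)) :
    σ * ((((n : ℝ) * (n + 1) * m) ^ 2 + p) / k + n * m * K ^ m) +
      S * (Real.exp n * (4 * m ^ 2 * K / n + 2 * m ^ 2 * n * K ^ m) ^ (n - 1)) ≤ σ / 50 :=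
  total_of n m σ S K _ hm hK0 hK hm2 hS (numbers_k' n m p k K hm hK0 hK hm2 hk hp)

end Pool.Agent.Helper4.NF
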